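import Pool.Agent.TH198.AT.Conv

/-! The tangent inequality (piece JEN, helper574). -/

set_option autoImplicit false

open MeasureTheory ProbabilityTheory Set Filter Topology

namespace Pool.TH198.AT

theorem JEN_integrable_cosh (a b : ℝ) :
    Integrable (fun y => Real.cosh (a + b * y)) (gaussianReal 0 1) := by
  have h1 : Integrable (fun y => Real.exp a / 2 * Real.exp (b * y) +
      Real.exp (-a) / 2 * Real.exp (-b * y)) (gaussianReal 0 1) :=
    ((integrable_exp_mul_gaussianReal b).const_mul _).add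
      ((integrable_exp_mul_gaussianReal (-b)).const_mul _)
  refine h1.congr (Filter.Eventually.of_forall fun y => ?_)
  simp only
  rw [Real.cosh_eq, show -(a + b * y) = -a + -b * y by ring, Real.exp_add, Real.exp_add]
  ring

theorem t_JEN : St_JEN := by
  intro m v x hm hm1 hv
  obtain ⟨c, hc⟩ : ∃ c : ℝ → ℝ, c = fun y => Real.cosh (x + √v * y) := ⟨_, rfl⟩
  have hcy : ∀ y, Real.cosh (x + √v * y) = c y := fun y => by rw [hc]
  have hc1 : ∀ y, 1 ≤ c y := fun y => by rw [hc]; exact Real.one_le_cosh _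
  have hc0 : ∀ y, 0 < c y := fun y => lt_of_lt_of_le one_pos (hc1 y)
  have hcont : Continuous c := by
    rw [hc]
    exact Real.continuous_cosh.comp (by fun_prop)
  have hI1 : Integrable c (gaussianReal 0 1) := by
    rw [hc]; exact JEN_integrable_cosh x (√v)
  have hI2 : Integrable (fun y => c y ^ 2) (gaussianReal 0 1) := by
    have h1 := ((JEN_integrable_cosh (2 * x) (2 * √v)).add (integrable_const (1 : ℝ))).div_const 2
    refine h1.congr (Filter.Eventually.of_forall fun y => ?_)
    simp only [Pi.add_apply]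
    have h2 : 2 * x + 2 * √v * y = 2 * (x + √v * y) := by ring
    rw [h2, Real.cosh_two_mul, hcy, Real.sinh_sq, hcy]
    ring
  have hlog0 : ∀ y, 0 ≤ Real.log (c y) := fun y => Real.log_nonneg (hc1 y)
  have hlogc : ∀ y, Real.log (c y) ≤ c y := fun y => (Real.log_le_sub_one_of_pos (hc0 y)).trans (by linarith)
  have hpm : ∀ y, 1 ≤ c y ^ m := fun y => Real.one_le_rpow (hc1 y) hm.le
  have hpm1 : ∀ y, c y ^ m ≤ c y := fun y => by
    have := Real.rpow_le_rpow_of_exponent_le (hc1 y) hm1
    rwa [Real.rpow_one] at this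
  have hcm : Continuous fun y => c y ^ m := hcont.rpow_const fun y => Or.inl (hc0 y).ne'
  have hcl : Continuous fun y => Real.log (c y) := hcont.log fun y => (hc0 y).ne'
  have hIm : Integrable (fun y => c y ^ m) (gaussianReal 0 1) := by
    refine hI1.mono' hcm.aestronglyMeasurable (Filter.Eventually.of_forall fun y => ?_)
    rw [Real.norm_of_nonneg (by linarith [hpm y])]
    exact hpm1 y
  have hIl : Integrable (fun y => c y ^ m * Real.log (c y)) (gaussianReal 0 1) := by
    refine hI2.mono' (hcm.mul hcl).aestronglyMeasurable (Filter.Eventually.of_forall fun y => ?_)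
    rw [Real.norm_of_nonneg (mul_nonneg (by linarith [hpm y]) (hlog0 y)), sq]
    exact mul_le_mul (hpm1 y) (hlogc y) (hlog0 y) (hc0 y).le
  -- the two expectations
  have hA1 : 1 ≤ ∫ y, c y ^ m ∂(gaussianReal 0 1) := by
    have h1 : ∫ _y : ℝ, (1 : ℝ) ∂(gaussianReal 0 1) ≤ ∫ y, c y ^ m ∂(gaussianReal 0 1) :=
      integral_mono (integrable_const _) hIm hpm
    simpa using h1
  have hB1 : 1 ≤ ∫ y, c y ∂(gaussianReal 0 1) := by
    have h1 : ∫ _y : ℝ, (1 : ℝ) ∂(gaussianReal 0 1) ≤ ∫ y, c y ∂(gaussianReal 0 1) :=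
      integral_mono (integrable_const _) hI1 hc1
    simpa using h1
  unfold UH LP E1
  simp_rw [hcy, Real.rpow_one]
  obtain ⟨A, hA⟩ : ∃ A, A = ∫ y, c y ^ m ∂(gaussianReal 0 1) := ⟨_, rfl⟩
  obtain ⟨B, hB⟩ : ∃ B, B = ∫ y, c y ∂(gaussianReal 0 1) := ⟨_, rfl⟩
  obtain ⟨N, hN⟩ : ∃ N, N = ∫ y, c y ^ m * Real.log (c y) ∂(gaussianReal 0 1) := ⟨_, rfl⟩
  rw [← hA, ← hB, ← hN]
  rw [← hA] at hA1
  rw [← hB] at hB1
  have hA0 : 0 < A := by linarith
  have hB0 : 0 < B := by linarith
  -- pointwise
  have hpt : ∀ y, (1 - m) * (c y ^ m * Real.log (c y)) + (Real.log A - Real.log B) * c y ^ m ≤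
      A / B * c y - c y ^ m := by
    intro y
    have h1 : Real.log (c y ^ (1 - m) * (A / B)) ≤ c y ^ (1 - m) * (A / B) - 1 :=
      Real.log_le_sub_one_of_pos (by
        have := Real.rpow_pos_of_pos (hc0 y) (1 - m)
        positivity)
    have h2 : Real.log (c y ^ (1 - m) * (A / B)) = (1 - m) * Real.log (c y) + (Real.log A - Real.log B) := by
      rw [Real.log_mul (Real.rpow_pos_of_pos (hc0 y) _).ne' (by positivity), Real.log_rpow (hc0 y),
        Real.log_div hA0.ne' hB0.ne']
    rw [h2] at h1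
    have h3 : c y ^ m * c y ^ (1 - m) = c y := by
      rw [← Real.rpow_add (hc0 y), add_sub_cancel, Real.rpow_one]
    have h4 := mul_le_mul_of_nonneg_left h1 (show 0 ≤ c y ^ m by linarith [hpm y])
    calc (1 - m) * (c y ^ m * Real.log (c y)) + (Real.log A - Real.log B) * c y ^ m
        = c y ^ m * ((1 - m) * Real.log (c y) + (Real.log A - Real.log B)) := by ring
      _ ≤ c y ^ m * (c y ^ (1 - m) * (A / B) - 1) := h4
      _ = (c y ^ m * c y ^ (1 - m)) * (A / B) - c y ^ m := by ring
      _ = A / B * c y - c y ^ m := by rw [h3]; ring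
  have hint := integral_mono (μ := gaussianReal 0 1)
    ((hIl.const_mul (1 - m)).add (hIm.const_mul (Real.log A - Real.log B)))
    ((hI1.const_mul (A / B)).sub hIm) hpt
  simp only [Pi.add_apply, Pi.sub_apply] at hint
  rw [integral_add (hIl.const_mul _) (hIm.const_mul _), integral_sub (hI1.const_mul _) hIm,
    integral_const_mul, integral_const_mul, integral_const_mul, ← hA, ← hB, ← hN] at hint
  have h5 : A / B * B = A := div_mul_cancel₀ _ hB0.ne'
  rw [h5, sub_self] at hint
  have h6 : (1 - m) * (N / A) + (Real.log A - Real.log B) ≤ 0 := by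
    have h7 : ((1 - m) * (N / A) + (Real.log A - Real.log B)) * A =
        (1 - m) * N + (Real.log A - Real.log B) * A := by
      field_simp
    by_contra hcon
    push Not at hcon
    have := mul_pos hcon hA0
    linarith
  have h8 : m * (1 / m * Real.log A) = Real.log A := by field_simp
  rw [h8, one_div_one, one_mul]
  linarith

end Pool.TH198.AT
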